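import Pool.Agent.TH57.Thr.Dist2

set_option autoImplicit false

/-! For every group, `√2` is the exact critical distance from the identity for invertible matrices
over the integral group ring: closer matrices are stably products of commutators, and at distance
at most `√2` every class of `K₁` is represented. -/

namespace Pool.Agent.Results.MP_8f66f0_al.DistanceRootTwo

open TH57.Thr

theorem result (Γ : Type) [Group Γ] :
    (∀ (n : ℕ) (A : (Matrix (Fin n) (Fin n) (MonoidAlgebra ℤ Γ))ˣ) (c : ℝ), c ^ 2 < 2 →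
      NormLE ((↑A : Matrix (Fin n) (Fin n) (MonoidAlgebra ℤ Γ)) - 1) c →
      ∃ (m : ℕ) (C : (Matrix (Fin n ⊕ Fin m) (Fin n ⊕ Fin m) (MonoidAlgebra ℤ Γ))ˣ),
        C ∈ commutator (Matrix (Fin n ⊕ Fin m) (Fin n ⊕ Fin m) (MonoidAlgebra ℤ Γ))ˣ ∧
        (↑C : Matrix (Fin n ⊕ Fin m) (Fin n ⊕ Fin m) (MonoidAlgebra ℤ Γ)) =
          Matrix.fromBlocks (↑A : Matrix (Fin n) (Fin n) (MonoidAlgebra ℤ Γ))
            (0 : Matrix (Fin n) (Fin m) (MonoidAlgebra ℤ Γ))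
            (0 : Matrix (Fin m) (Fin n) (MonoidAlgebra ℤ Γ))
            (1 : Matrix (Fin m) (Fin m) (MonoidAlgebra ℤ Γ))) ∧
    (∀ (n : ℕ) (A : (Matrix (Fin n) (Fin n) (MonoidAlgebra ℤ Γ))ˣ),
      ∃ (m : ℕ) (C : (Matrix (Fin n ⊕ Fin m) (Fin n ⊕ Fin m) (MonoidAlgebra ℤ Γ))ˣ),
        C ∈ commutator (Matrix (Fin n ⊕ Fin m) (Fin n ⊕ Fin m) (MonoidAlgebra ℤ Γ))ˣ ∧
        NormLE (Matrix.fromBlocks (↑A : Matrix (Fin n) (Fin n) (MonoidAlgebra ℤ Γ))
            (0 : Matrix (Fin n) (Fin m) (MonoidAlgebra ℤ Γ))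
            (0 : Matrix (Fin m) (Fin n) (MonoidAlgebra ℤ Γ))
            (1 : Matrix (Fin m) (Fin m) (MonoidAlgebra ℤ Γ)) *
          (↑C : Matrix (Fin n ⊕ Fin m) (Fin n ⊕ Fin m) (MonoidAlgebra ℤ Γ)) - 1)
          (Real.sqrt 2)) := by
  refine ⟨fun n A c hc hA => ?_, fun n A => dist_reduction_fin n A⟩
  obtain ⟨m, hm⟩ := near_one n A c hc hA
  exact ⟨m, _, hm, rfl⟩

end Pool.Agent.Results.MP_8f66f0_al.DistanceRootTwo
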