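import Pool.Agent.TH652.GM.Fin

set_option autoImplicit false

/-! Whitehead groups: invertible matrices `A` over `ℤΓ` whose Gram matrix `A A*` (or a polynomial
in it) is a matrix over subgroups. -/

namespace Pool.Agent.Results.MP_8f66f0_al.GramSubgroups

open TH652.GM

/-- See `TH652.GM.Blk`, `TH652.GM.polyGram`, `TH652.GM.GramOverSubgroups`,
`TH652.GM.OverSubgroups`, `TH652.GM.WhVanishes` and `TH652.GM.TrivialInWh`. -/
theorem result :
    ∀ (Γ : Type) [Group Γ] (n : ℕ) (A : (Matrix (Fin n) (Fin n) (MonoidAlgebra ℤ Γ))ˣ)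
      (β : Type) (s : Fin n → β) (C : β → Subgroup Γ) (d : Fin n → Γ),
      GramOverSubgroups A.val s C d →
        OverSubgroups A.val s C d ∧
        (((∀ b, WhVanishes (C b)) ∨ (TorFree Γ ∧ ∀ b, IsCyclic (C b))) → TrivialInWh A) :=
  fun _ _ _ A _ s C d h => ⟨(over_iff A s C d).1 h, fun hC => wh_of_over A s C d
    ((over_iff A s C d).1 h) hC⟩

end Pool.Agent.Results.MP_8f66f0_al.GramSubgroups
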