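import Pool.Agent.TH57.Thr.Asm

set_option autoImplicit false

/-! Invertible matrices over the integral group ring of a torsion-free group whose operator norm
is less than `3 / √2` represent zero in the Whitehead group. -/

namespace Pool.Agent.Results.MP_8f66f0_al.NormBelowThreshold

open TH57.Thr

theorem result (Γ : Type) [Group Γ] (htf : ∀ g : Γ, ∀ k : ℕ, 0 < k → g ^ k = 1 → g = 1)
    (n : ℕ) (A : (Matrix (Fin n) (Fin n) (MonoidAlgebra ℤ Γ))ˣ)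
    (c : ℝ) (hc0 : 0 < c) (hc : c ^ 2 < 9 / 2)
    (hA : NormLE (A : Matrix (Fin n) (Fin n) (MonoidAlgebra ℤ Γ)) c) :
    ∃ (m : ℕ) (g : Γ) (ε : ℤˣ)
      (C : (Matrix (Fin n ⊕ Fin (m + 1)) (Fin n ⊕ Fin (m + 1)) (MonoidAlgebra ℤ Γ))ˣ),
      C ∈ commutator (Matrix (Fin n ⊕ Fin (m + 1)) (Fin n ⊕ Fin (m + 1))
              (MonoidAlgebra ℤ Γ))ˣ ∧
      Matrix.fromBlocks (↑A : Matrix (Fin n) (Fin n) (MonoidAlgebra ℤ Γ))
          (0 : Matrix (Fin n) (Fin (m + 1)) (MonoidAlgebra ℤ Γ))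
          (0 : Matrix (Fin (m + 1)) (Fin n) (MonoidAlgebra ℤ Γ))
          (1 : Matrix (Fin (m + 1)) (Fin (m + 1)) (MonoidAlgebra ℤ Γ)) =
        Matrix.diagonal (fun i : Fin n ⊕ Fin (m + 1) =>
            if i = Sum.inr (0 : Fin (m + 1)) then
              (MonoidAlgebra.single g ((ε : ℤ)) : MonoidAlgebra ℤ Γ) else 1) *
          (↑C : Matrix (Fin n ⊕ Fin (m + 1)) (Fin n ⊕ Fin (m + 1)) (MonoidAlgebra ℤ Γ)) :=
  TT_frozen n A (TT_small htf A c hc0 hc hA)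

end Pool.Agent.Results.MP_8f66f0_al.NormBelowThreshold
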