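import Pool.Agent.TH57.Thr.Red

set_option autoImplicit false

/-! Every class of `K₁(ℤΓ)` is represented by an invertible matrix whose operator norm is as close
to `3 / √2` as one likes. -/

namespace Pool.Agent.Results.MP_8f66f0_al.NormReduction

open TH57.Thr

theorem result (Γ : Type) [Group Γ] (c : ℝ) (hc : 9 / 2 < c ^ 2)
    (n : ℕ) (A : (Matrix (Fin n) (Fin n) (MonoidAlgebra ℤ Γ))ˣ) :
    ∃ (m : ℕ) (C : (Matrix (Fin n ⊕ Fin m) (Fin n ⊕ Fin m) (MonoidAlgebra ℤ Γ))ˣ),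
      C ∈ commutator (Matrix (Fin n ⊕ Fin m) (Fin n ⊕ Fin m) (MonoidAlgebra ℤ Γ))ˣ ∧
      NormLE (Matrix.fromBlocks (↑A : Matrix (Fin n) (Fin n) (MonoidAlgebra ℤ Γ))
          (0 : Matrix (Fin n) (Fin m) (MonoidAlgebra ℤ Γ))
          (0 : Matrix (Fin m) (Fin n) (MonoidAlgebra ℤ Γ))
          (1 : Matrix (Fin m) (Fin m) (MonoidAlgebra ℤ Γ)) *
        (↑C : Matrix (Fin n ⊕ Fin m) (Fin n ⊕ Fin m) (MonoidAlgebra ℤ Γ))) c :=
  reduction_fin n A c hc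

end Pool.Agent.Results.MP_8f66f0_al.NormReduction
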